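import Mathlib

set_option autoImplicit false

namespace Pool.Agent.Helper488.Probe

/-- a straight line `a x + b y = k` of the plane -/
structure Line where
  a : ℝ
  b : ℝ
  k : ℝ
  nz : a ≠ 0 ∨ b ≠ 0

/-- the points of a line -/
def Line.pts (l : Line) : Set ℂ := {z | l.a * z.re + l.b * z.im = l.k}

/-- all points of the finite set `S` are vertices of its convex hull -/
def Ext (S : Finset ℂ) : Prop := ∀ w ∈ S, w ∉ convexHull ℝ ((S : Set ℂ) \ {w})

/-- convex polygons with exactly `n` vertices -/
def IsNgon (n : ℕ) (P : Set ℂ) : Prop :=
  ∃ S : Finset ℂ, S.card = n ∧ Ext S ∧ P = convexHull ℝ (S : Set ℂ)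

/-- an adaptive strategy: from the answers received so far it chooses the next line, or stops -/
abbrev Strategy : Type := List ℝ → Option Line

/-- the answers received in the first `j` steps, if the polygon is `P`: the answer to the probe `l`
is the length of the segment `l ∩ P` -/
noncomputable def run (σ : Strategy) (P : Set ℂ) : ℕ → List ℝ
  | 0 => []
  | j + 1 =>
    match σ (run σ P j) with
    | none => run σ P j
    | some l => run σ P j ++ [Metric.diam (l.pts ∩ P)]

/-- the strategy `σ` (for the given interior point `p`) determines convex `n`-gons and never uses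
more than `m` probes -/
structure Determines (n : ℕ) (p : ℂ) (m : ℕ) (σ : Strategy) : Prop where
  adm : ∀ P, IsNgon n P → p ∈ interior P → ∀ j l, σ (run σ P j) = some l →
    (l.pts ∩ interior P).Nonempty
  stop : ∀ P, IsNgon n P → p ∈ interior P → σ (run σ P m) = none
  det : ∀ P P', IsNgon n P → p ∈ interior P → IsNgon n P' → p ∈ interior P' →
    run σ P m = run σ P' m → P = P'

end Pool.Agent.Helper488.Probe
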