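import Pool.Agent.Helper488.Probe.Defs

set_option autoImplicit false

namespace Pool.Agent.Helper488.Probe

/-- the point with coordinates `x, y` in the frame with origin `c` and axes towards `a`, `b` -/
def fr (c a b : ℂ) (x y : ℝ) : ℂ :=
  ⟨c.re + x * (a.re - c.re) + y * (b.re - c.re), c.im + x * (a.im - c.im) + y * (b.im - c.im)⟩

/-- `W ∪ {c}` is the set of vertices of a convex polygon, where `a, c, b` are consecutive -/
structure Frame (W : Finset ℂ) (c a b : ℂ) : Prop where
  aW : a ∈ W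
  bW : b ∈ W
  nd : (a.re - c.re) * (b.im - c.im) - (a.im - c.im) * (b.re - c.re) ≠ 0
  co : ∀ w ∈ W, ∃ x y : ℝ, w = fr c a b x y ∧ 0 ≤ x ∧ 0 ≤ y ∧ 1 ≤ x + y ∧
    (w ≠ a → 0 < y) ∧ (w ≠ b → 0 < x)
  ext : Ext (insert c W)

/-- coordinates in a frame are unique -/
theorem fr_inj {W : Finset ℂ} {c a b : ℂ} (h : Frame W c a b) {x y x' y' : ℝ}
    (he : fr c a b x y = fr c a b x' y') : x = x' ∧ y = y' := by
  have h1 := congrArg Complex.re he
  have h2 := congrArg Complex.im he
  simp only [fr] at h1 h2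
  have hd := h.nd
  constructor
  · have h3 : (x - x') * ((a.re - c.re) * (b.im - c.im) - (a.im - c.im) * (b.re - c.re)) = 0 := by
      linear_combination (b.im - c.im) * h1 - (b.re - c.re) * h2
    exact sub_eq_zero.1 ((mul_eq_zero.1 h3).resolve_right hd)
  · have h3 : (y - y') * ((a.re - c.re) * (b.im - c.im) - (a.im - c.im) * (b.re - c.re)) = 0 := by
      linear_combination (a.re - c.re) * h2 - (a.im - c.im) * h1
    exact sub_eq_zero.1 ((mul_eq_zero.1 h3).resolve_right hd)

theorem cover_comb (c a b : ℂ) (u v x y x' y' : ℝ) (huv : u + v = 1) :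
    u • fr c a b x y + v • fr c a b x' y' = fr c a b (u * x + v * x') (u * y + v * y') := by
  apply Complex.ext
  · simp only [fr, Complex.add_re, Complex.real_smul, Complex.mul_re, Complex.ofReal_re, Complex.ofReal_im, zero_mul,
      sub_zero]
    linear_combination c.re * huv
  · simp only [fr, Complex.add_im, Complex.real_smul, Complex.mul_im, Complex.ofReal_re, Complex.ofReal_im, zero_mul,
      add_zero]
    linear_combination c.im * huv

theorem cover_zero (c a b : ℂ) : fr c a b 0 0 = c := by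
  apply Complex.ext <;> simp [fr]

theorem cover_coord {W : Finset ℂ} {c a b : ℂ} (h : Frame W c a b) {y : ℂ} (hy : y ∈ convexHull ℝ (W : Set ℂ)) :
    ∃ X Y : ℝ, y = fr c a b X Y ∧ 0 ≤ X ∧ 0 ≤ Y ∧ 1 ≤ X + Y := by
  have hsub : (W : Set ℂ) ⊆ {y : ℂ | ∃ X Y : ℝ, y = fr c a b X Y ∧ 0 ≤ X ∧ 0 ≤ Y ∧ 1 ≤ X + Y} := by
    intro w hw
    obtain ⟨x, y, h1, h2, h3, h4, _⟩ := h.co w hw
    exact ⟨x, y, h1, h2, h3, h4⟩
  have hconv : Convex ℝ {y : ℂ | ∃ X Y : ℝ, y = fr c a b X Y ∧ 0 ≤ X ∧ 0 ≤ Y ∧ 1 ≤ X + Y} := by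
    rintro p ⟨X, Y, rfl, h1, h2, h3⟩ q ⟨X', Y', rfl, h1', h2', h3'⟩ u v hu hv huv
    refine ⟨u * X + v * X', u * Y + v * Y', cover_comb c a b u v X Y X' Y' huv, by positivity, by positivity, ?_⟩
    nlinarith
  exact convexHull_min hsub hconv hy

/-- cutting off the corner `c`: a point of the old polygon is in the new one or in the cut triangle -/
theorem cover {W : Finset ℂ} {c a b : ℂ} (h : Frame W c a b) {s t : ℝ} (hs : 0 < s) (hs1 : s < 1)
    (ht : 0 < t) (ht1 : t < 1) (z : ℂ) (hz : z ∈ convexHull ℝ ((insert c W : Finset ℂ) : Set ℂ)) :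
    z ∈ convexHull ℝ ((insert (fr c a b s 0) (insert (fr c a b 0 t) W) : Finset ℂ) : Set ℂ) ∨
      ∃ x y : ℝ, z = fr c a b x y ∧ 0 ≤ x ∧ 0 ≤ y ∧ x / s + y / t ≤ 1 := by
  have hW : (W : Set ℂ).Nonempty := ⟨a, h.aW⟩
  rw [Finset.coe_insert, convexHull_insert hW, convexJoin_singleton_left, Set.mem_iUnion₂] at hz
  obtain ⟨y, hy, hz⟩ := hz
  obtain ⟨X, Y, rfl, hX, hY, hXY⟩ := cover_coord h hy
  obtain ⟨α, β, hα, hβ, hαβ, rfl⟩ := hz
  have hz' : α • c + β • fr c a b X Y = fr c a b (β * X) (β * Y) := by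
    conv_lhs => rw [← cover_zero c a b]
    rw [cover_zero c a b]
    have := cover_comb c a b α β 0 0 X Y hαβ
    rw [cover_zero] at this
    rw [this]
    simp
  rw [hz']
  set q := X / s + Y / t with hq
  by_cases hc : β * q ≤ 1
  · right
    refine ⟨β * X, β * Y, rfl, by positivity, by positivity, ?_⟩
    calc β * X / s + β * Y / t = β * q := by rw [hq]; ring
      _ ≤ 1 := hc
  · left
    push Not at hc
    have hβ1 : β ≤ 1 := by linarith
    have hq0 : 0 ≤ q := by positivity
    have hq1 : 1 < q := by nlinarith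
    have hqne : q ≠ 0 := by linarith
    have hqm : 0 < q - 1 := by linarith
    set H := convexHull ℝ ((insert (fr c a b s 0) (insert (fr c a b 0 t) W) : Finset ℂ) : Set ℂ) with hH
    have hHc : Convex ℝ H := convex_convexHull _ _
    have hA : fr c a b s 0 ∈ H := subset_convexHull _ _ (by simp)
    have hB : fr c a b 0 t ∈ H := subset_convexHull _ _ (by simp)
    have hyH : fr c a b X Y ∈ H := by
      apply convexHull_mono _ hy
      intro w hw
      simp only [Finset.coe_insert]
      exact Or.inr (Or.inr hw)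
    have hZ : fr c a b (X / q) (Y / q) ∈ H := by
      have e1 : X / (s * q) + Y / (t * q) = 1 := by
        have : X / (s * q) + Y / (t * q) = q / q := by
          rw [hq]
          field_simp
        rw [this, div_self hqne]
      have := hHc hA hB (by positivity : 0 ≤ X / (s * q)) (by positivity : 0 ≤ Y / (t * q)) e1
      rw [cover_comb c a b _ _ _ _ _ _ e1] at this
      have e2 : X / (s * q) * s + Y / (t * q) * 0 = X / q := by
        rw [mul_zero, add_zero]
        field_simp
      have e3 : X / (s * q) * 0 + Y / (t * q) * t = Y / q := by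
        rw [mul_zero, zero_add]
        field_simp
      rwa [e2, e3] at this
    have hmu : 0 ≤ (β * q - 1) / (q - 1) := div_nonneg (by linarith) hqm.le
    have hmu1 : 0 ≤ 1 - (β * q - 1) / (q - 1) := by
      rw [sub_nonneg, div_le_one hqm]
      nlinarith
    have := hHc hZ hyH hmu1 hmu (by ring)
    rw [cover_comb c a b _ _ _ _ _ _ (by ring)] at this
    have e : (1 - (β * q - 1) / (q - 1)) / q + (β * q - 1) / (q - 1) = β := by
      field_simp
      ring
    have e4 : (1 - (β * q - 1) / (q - 1)) * (X / q) + (β * q - 1) / (q - 1) * X = β * X := by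
      linear_combination X * e
    have e5 : (1 - (β * q - 1) / (q - 1)) * (Y / q) + (β * q - 1) / (q - 1) * Y = β * Y := by
      linear_combination Y * e
    rwa [e4, e5] at this

/-- the new polygon is contained in the old one, and lies beyond the line through the two new
vertices; in particular it does not contain `c` -/
theorem beyond {W : Finset ℂ} {c a b : ℂ} (h : Frame W c a b) {s t : ℝ} (hs : 0 < s) (hs1 : s < 1)
    (ht : 0 < t) (ht1 : t < 1) :
    convexHull ℝ ((insert (fr c a b s 0) (insert (fr c a b 0 t) W) : Finset ℂ) : Set ℂ) ⊆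
      convexHull ℝ ((insert c W : Finset ℂ) : Set ℂ) ∧
    ∀ x y : ℝ, fr c a b x y ∈
      convexHull ℝ ((insert (fr c a b s 0) (insert (fr c a b 0 t) W) : Finset ℂ) : Set ℂ) →
      1 ≤ x / s + y / t := by
  constructor
  · apply convexHull_min _ (convex_convexHull ℝ _)
    have hsub := subset_convexHull ℝ ((insert c W : Finset ℂ) : Set ℂ)
    have hc : c ∈ convexHull ℝ ((insert c W : Finset ℂ) : Set ℂ) :=
      hsub (Finset.mem_coe.2 (Finset.mem_insert_self _ _))
    have ha : a ∈ convexHull ℝ ((insert c W : Finset ℂ) : Set ℂ) :=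
      hsub (Finset.mem_coe.2 (Finset.mem_insert_of_mem h.aW))
    have hb : b ∈ convexHull ℝ ((insert c W : Finset ℂ) : Set ℂ) :=
      hsub (Finset.mem_coe.2 (Finset.mem_insert_of_mem h.bW))
    intro z hz
    rw [Finset.mem_coe, Finset.mem_insert, Finset.mem_insert] at hz
    rcases hz with rfl | rfl | hz
    · have h1 := (convex_convexHull ℝ ((insert c W : Finset ℂ) : Set ℂ)) hc ha
        (show (0 : ℝ) ≤ 1 - s by linarith) hs.le (by ring)
      have h2 : fr c a b s 0 = (1 - s) • c + s • a := by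
        apply Complex.ext
        · simp [fr]
          ring
        · simp [fr]
          ring
      rw [h2]
      exact h1
    · have h1 := (convex_convexHull ℝ ((insert c W : Finset ℂ) : Set ℂ)) hc hb
        (show (0 : ℝ) ≤ 1 - t by linarith) ht.le (by ring)
      have h2 : fr c a b 0 t = (1 - t) • c + t • b := by
        apply Complex.ext
        · simp [fr]
          ring
        · simp [fr]
          ring
      rw [h2]
      exact h1
    · exact hsub (Finset.mem_coe.2 (Finset.mem_insert_of_mem hz))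
  · intro x y hxy
    have hC : Convex ℝ {z : ℂ | ∃ x y : ℝ, z = fr c a b x y ∧ 1 ≤ x / s + y / t} := by
      rintro z1 ⟨x1, y1, rfl, h1⟩ z2 ⟨x2, y2, rfl, h2⟩ α β hα hβ hαβ
      refine ⟨α * x1 + β * x2, α * y1 + β * y2, ?_, ?_⟩
      · have hβ' : β = 1 - α := by linarith
        subst hβ'
        apply Complex.ext
        · simp [fr]
          ring
        · simp [fr]
          ring
      · have e : (α * x1 + β * x2) / s + (α * y1 + β * y2) / t
            = α * (x1 / s + y1 / t) + β * (x2 / s + y2 / t) := by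
          ring
        rw [e]
        nlinarith
    have hsub : ((insert (fr c a b s 0) (insert (fr c a b 0 t) W) : Finset ℂ) : Set ℂ) ⊆
        {z : ℂ | ∃ x y : ℝ, z = fr c a b x y ∧ 1 ≤ x / s + y / t} := by
      intro z hz
      rw [Finset.mem_coe, Finset.mem_insert, Finset.mem_insert] at hz
      rcases hz with rfl | rfl | hz
      · refine ⟨s, 0, rfl, ?_⟩
        rw [div_self hs.ne']
        simp
      · refine ⟨0, t, rfl, ?_⟩
        rw [div_self ht.ne']
        simp
      · obtain ⟨x, y, hw, hx, hy, hxy, _, _⟩ := h.co z hz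
        refine ⟨x, y, hw, ?_⟩
        have h1 : x ≤ x / s := by
          rw [le_div_iff₀ hs]
          nlinarith
        have h2 : y ≤ y / t := by
          rw [le_div_iff₀ ht]
          nlinarith
        linarith
    obtain ⟨x', y', he, h1⟩ := convexHull_min hsub hC hxy
    obtain ⟨e1, e2⟩ := fr_inj h he
    rw [e1, e2]
    exact h1

theorem cut_fr_c (c a b : ℂ) : fr c a b 0 0 = c := by
  apply Complex.ext <;> simp [fr]

theorem cut_fr_a (c a b : ℂ) : fr c a b 1 0 = a := by
  apply Complex.ext <;> simp [fr]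

theorem cut_fr_b (c a b : ℂ) : fr c a b 0 1 = b := by
  apply Complex.ext <;> simp [fr]

theorem cut_fr_swap (c a b : ℂ) (x y : ℝ) : fr c a b x y = fr c b a y x := by
  apply Complex.ext <;> simp only [fr] <;> ring

theorem cut_swap {W : Finset ℂ} {c a b : ℂ} (h : Frame W c a b) : Frame W c b a where
  aW := h.bW
  bW := h.aW
  nd := by
    intro h0
    apply h.nd
    linear_combination -h0
  co := by
    intro w hw
    obtain ⟨x, y, h1, h2, h3, h4, h5, h6⟩ := h.co w hw
    exact ⟨y, x, by rw [h1, cut_fr_swap], h3, h2, by linarith, h6, h5⟩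
  ext := h.ext

noncomputable def cutX (c a b z : ℂ) : ℝ :=
  ((z.re - c.re) * (b.im - c.im) - (z.im - c.im) * (b.re - c.re)) /
    ((a.re - c.re) * (b.im - c.im) - (a.im - c.im) * (b.re - c.re))

noncomputable def cutY (c a b z : ℂ) : ℝ :=
  ((a.re - c.re) * (z.im - c.im) - (a.im - c.im) * (z.re - c.re)) /
    ((a.re - c.re) * (b.im - c.im) - (a.im - c.im) * (b.re - c.re))

theorem cutX_fr {c a b : ℂ}
    (nd : (a.re - c.re) * (b.im - c.im) - (a.im - c.im) * (b.re - c.re) ≠ 0) (x y : ℝ) :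
    cutX c a b (fr c a b x y) = x := by
  unfold cutX
  rw [div_eq_iff nd]
  simp only [fr]
  ring

theorem cutY_fr {c a b : ℂ}
    (nd : (a.re - c.re) * (b.im - c.im) - (a.im - c.im) * (b.re - c.re) ≠ 0) (x y : ℝ) :
    cutY c a b (fr c a b x y) = y := by
  unfold cutY
  rw [div_eq_iff nd]
  simp only [fr]
  ring

theorem cutX_aff (c a b z w : ℂ) (p q : ℝ) (hpq : p + q = 1) :
    cutX c a b (p • z + q • w) = p * cutX c a b z + q * cutX c a b w := by
  have hq : q = 1 - p := by linarith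
  subst hq
  unfold cutX
  rw [← mul_div_assoc, ← mul_div_assoc, ← add_div]
  congr 1
  simp only [Complex.add_re, Complex.add_im, Complex.real_smul, Complex.mul_re, Complex.mul_im,
    Complex.ofReal_re, Complex.ofReal_im]
  ring

theorem cutY_aff (c a b z w : ℂ) (p q : ℝ) (hpq : p + q = 1) :
    cutY c a b (p • z + q • w) = p * cutY c a b z + q * cutY c a b w := by
  have hq : q = 1 - p := by linarith
  subst hq
  unfold cutY
  rw [← mul_div_assoc, ← mul_div_assoc, ← add_div]
  congr 1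
  simp only [Complex.add_re, Complex.add_im, Complex.real_smul, Complex.mul_re, Complex.mul_im,
    Complex.ofReal_re, Complex.ofReal_im]
  ring

theorem cut_convex (X Y : ℂ → ℝ)
    (hX : ∀ z w : ℂ, ∀ p q : ℝ, p + q = 1 → X (p • z + q • w) = p * X z + q * X w)
    (hY : ∀ z w : ℂ, ∀ p q : ℝ, p + q = 1 → Y (p • z + q • w) = p * Y z + q * Y w) (k : ℝ) :
    Convex ℝ {z : ℂ | 0 < Y z ∨ (Y z = 0 ∧ X z ≤ k)} := by
  intro z hz w hw p q hp hq hpq
  change 0 < Y (p • z + q • w) ∨ (Y (p • z + q • w) = 0 ∧ X (p • z + q • w) ≤ k)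
  rw [hX z w p q hpq, hY z w p q hpq]
  have hYz : 0 ≤ Y z := by
    rcases hz with h | h
    · exact h.le
    · exact h.1.ge
  have hYw : 0 ≤ Y w := by
    rcases hw with h | h
    · exact h.le
    · exact h.1.ge
  rcases hp.eq_or_lt with hp0 | hp0
  · have hq1 : q = 1 := by linarith
    rw [← hp0, hq1, zero_mul, zero_mul, zero_add, zero_add, one_mul, one_mul]
    exact hw
  · rcases hq.eq_or_lt with hq0 | hq0
    · have hp1 : p = 1 := by linarith
      rw [← hq0, hp1, zero_mul, zero_mul, add_zero, add_zero, one_mul, one_mul]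
      exact hz
    · rcases hz with h | h
      · left
        have h1 := mul_pos hp0 h
        have h2 := mul_nonneg hq hYw
        linarith
      · rcases hw with h' | h'
        · left
          have h1 := mul_pos hq0 h'
          have h2 := mul_nonneg hp hYz
          linarith
        · right
          rw [h.1, h'.1]
          refine ⟨by ring, ?_⟩
          have h1 := mul_le_mul_of_nonneg_left h.2 hp
          have h2 := mul_le_mul_of_nonneg_left h'.2 hq
          have h3 : p * k + q * k = k := by rw [← add_mul, hpq, one_mul]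
          linarith

theorem cut_notin (X Y : ℂ → ℝ)
    (hX : ∀ z w : ℂ, ∀ p q : ℝ, p + q = 1 → X (p • z + q • w) = p * X z + q * X w)
    (hY : ∀ z w : ℂ, ∀ p q : ℝ, p + q = 1 → Y (p • z + q • w) = p * Y z + q * Y w) (k : ℝ)
    (S : Set ℂ) (v : ℂ) (hv1 : Y v = 0) (hv2 : k < X v)
    (hS : ∀ z ∈ S, 0 < Y z ∨ (Y z = 0 ∧ X z ≤ k)) : v ∉ convexHull ℝ S := by
  intro hcon
  have h1 := convexHull_min (show S ⊆ {z : ℂ | 0 < Y z ∨ (Y z = 0 ∧ X z ≤ k)} from hS)
    (cut_convex X Y hX hY k) hcon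
  rcases h1 with h1 | h1
  · rw [hv1] at h1
    exact lt_irrefl _ h1
  · exact absurd h1.2 (not_le.2 hv2)

/-- `a` and `A` are vertices -/
theorem cut_aA {W : Finset ℂ} {c a b : ℂ} (h : Frame W c a b) {s t : ℝ} (hs1 : s < 1)
    (ht : 0 < t) :
    (∀ S : Set ℂ, (∀ z ∈ S, z ≠ a ∧ (z = fr c a b s 0 ∨ z = fr c a b 0 t ∨ z ∈ W)) →
      a ∉ convexHull ℝ S) ∧
    (∀ S : Set ℂ, (∀ z ∈ S, z = fr c a b 0 t ∨ z ∈ W) →
      fr c a b s 0 ∉ convexHull ℝ S) := by
  have hYW : ∀ z ∈ W, z ≠ a → 0 < cutY c a b z := by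
    intro z hz hza
    obtain ⟨x, y, h1, h2, h3, h4, h5, h6⟩ := h.co z hz
    rw [h1, cutY_fr h.nd]
    exact h5 hza
  have hYa : cutY c a b a = 0 := by
    have := cutY_fr h.nd 1 0
    rw [cut_fr_a] at this
    exact this
  have hXa : cutX c a b a = 1 := by
    have := cutX_fr h.nd 1 0
    rw [cut_fr_a] at this
    exact this
  constructor
  · intro S hS
    refine cut_notin (cutX c a b) (cutY c a b) (cutX_aff c a b) (cutY_aff c a b) s S a hYa
      (by rw [hXa]; exact hs1) ?_
    intro z hz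
    obtain ⟨hza, h1 | h1 | h1⟩ := hS z hz
    · right
      rw [h1, cutY_fr h.nd, cutX_fr h.nd]
      exact ⟨rfl, le_refl _⟩
    · left
      rw [h1, cutY_fr h.nd]
      exact ht
    · left
      exact hYW z h1 hza
  · intro S hS
    refine cut_notin (fun z => - cutX c a b z) (cutY c a b) ?_ (cutY_aff c a b) (-1) S _
      (cutY_fr h.nd s 0) ?_ ?_
    · intro z w p q hpq
      rw [cutX_aff c a b z w p q hpq]
      ring
    · rw [cutX_fr h.nd]
      linarith
    · intro z hz
      rcases hS z hz with h1 | h1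
      · left
        rw [h1, cutY_fr h.nd]
        exact ht
      · by_cases hza : z = a
        · right
          rw [hza, hYa, hXa]
          exact ⟨rfl, le_refl _⟩
        · left
          exact hYW z h1 hza

theorem cut_basic {W : Finset ℂ} {c a b : ℂ} (h : Frame W c a b) {s t : ℝ} (hs : 0 < s)
    (hs1 : s < 1) (ht1 : t < 1) :
    fr c a b s 0 ∉ W ∧ fr c a b 0 t ∉ W ∧ fr c a b s 0 ≠ fr c a b 0 t ∧ c ∉ W := by
  refine ⟨?_, ?_, ?_, ?_⟩
  · intro hA
    obtain ⟨x, y, h1, h2, h3, h4, h5, h6⟩ := h.co _ hA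
    obtain ⟨h7, h8⟩ := fr_inj h h1
    linarith
  · intro hA
    obtain ⟨x, y, h1, h2, h3, h4, h5, h6⟩ := h.co _ hA
    obtain ⟨h7, h8⟩ := fr_inj h h1
    linarith
  · intro hA
    obtain ⟨h7, h8⟩ := fr_inj h hA
    linarith
  · intro hA
    obtain ⟨x, y, h1, h2, h3, h4, h5, h6⟩ := h.co _ hA
    have h9 : fr c a b 0 0 = fr c a b x y := by
      rw [← h1]
      exact cut_fr_c c a b
    obtain ⟨h7, h8⟩ := fr_inj h h9
    linarith

theorem cut_ext {W : Finset ℂ} {c a b : ℂ} (h : Frame W c a b) {s t : ℝ} (hs : 0 < s) (hs1 : s < 1)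
    (ht : 0 < t) (ht1 : t < 1) : Ext (insert (fr c a b s 0) (insert (fr c a b 0 t) W)) := by
  obtain ⟨hAW, hBW, hAB, hcW⟩ := cut_basic h hs hs1 ht1 (s := s) (t := t)
  intro w hw
  rw [Finset.mem_insert, Finset.mem_insert] at hw
  have hmem : ∀ z, z ∈ ((insert (fr c a b s 0) (insert (fr c a b 0 t) W) : Finset ℂ) : Set ℂ) \ {w} →
      (z = fr c a b s 0 ∨ z = fr c a b 0 t ∨ z ∈ W) ∧ z ≠ w := by
    rintro z ⟨hz, hzw⟩
    rw [Finset.mem_coe, Finset.mem_insert, Finset.mem_insert] at hz
    exact ⟨hz, hzw⟩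
  by_cases hwA : w = fr c a b s 0
  · rw [hwA]
    refine (cut_aA h hs1 ht).2 _ ?_
    intro z hz
    rw [hwA] at hmem
    obtain ⟨h1, h2⟩ := hmem z hz
    rcases h1 with h1 | h1 | h1
    · exact absurd h1 h2
    · exact Or.inl h1
    · exact Or.inr h1
  by_cases hwB : w = fr c a b 0 t
  · rw [hwB]
    have h3 := (cut_aA (cut_swap h) ht1 hs).2
    rw [show fr c b a t 0 = fr c a b 0 t from (cut_fr_swap c a b 0 t).symm,
      show fr c b a 0 s = fr c a b s 0 from (cut_fr_swap c a b s 0).symm] at h3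
    refine h3 _ ?_
    intro z hz
    rw [hwB] at hmem
    obtain ⟨h1, h2⟩ := hmem z hz
    rcases h1 with h1 | h1 | h1
    · exact Or.inl h1
    · exact absurd h1 h2
    · exact Or.inr h1
  have hwW : w ∈ W := by
    rcases hw with h1 | h1 | h1
    · exact absurd h1 hwA
    · exact absurd h1 hwB
    · exact h1
  by_cases hwa : w = a
  · rw [hwa]
    refine (cut_aA h hs1 ht).1 _ ?_
    intro z hz
    rw [hwa] at hmem
    obtain ⟨h1, h2⟩ := hmem z hz
    exact ⟨h2, h1⟩
  by_cases hwb : w = b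
  · rw [hwb]
    have h3 := (cut_aA (cut_swap h) ht1 hs).1
    rw [show fr c b a t 0 = fr c a b 0 t from (cut_fr_swap c a b 0 t).symm,
      show fr c b a 0 s = fr c a b s 0 from (cut_fr_swap c a b s 0).symm] at h3
    refine h3 _ ?_
    intro z hz
    rw [hwb] at hmem
    obtain ⟨h1, h2⟩ := hmem z hz
    refine ⟨h2, ?_⟩
    rcases h1 with h1 | h1 | h1
    · exact Or.inr (Or.inl h1)
    · exact Or.inl h1
    · exact Or.inr (Or.inr h1)
  -- remaining vertices
  have hwc : w ≠ c := fun h0 => hcW (h0 ▸ hwW)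
  have hext := h.ext w (Finset.mem_insert_of_mem hwW)
  intro hcon
  apply hext
  refine convexHull_min ?_ (convex_convexHull ℝ _) hcon
  have hin : ∀ z, (z = c ∨ z ∈ W) → z ≠ w → z ∈ convexHull ℝ (((insert c W : Finset ℂ) : Set ℂ) \ {w}) := by
    intro z hz hzw
    refine subset_convexHull ℝ _ ⟨?_, hzw⟩
    rw [Finset.mem_coe, Finset.mem_insert]
    exact hz
  have hc' := hin c (Or.inl rfl) hwc.symm
  have ha' := hin a (Or.inr h.aW) (Ne.symm hwa)
  have hb' := hin b (Or.inr h.bW) (Ne.symm hwb)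
  intro z hz
  obtain ⟨h1, h2⟩ := hmem z hz
  rcases h1 with h1 | h1 | h1
  · have h4 : z = (1 - s) • c + s • a := by
      rw [h1]
      apply Complex.ext <;> simp [fr] <;> ring
    rw [h4]
    exact (convex_convexHull ℝ _) hc' ha' (by linarith) hs.le (by ring)
  · have h4 : z = (1 - t) • c + t • b := by
      rw [h1]
      apply Complex.ext <;> simp [fr] <;> ring
    rw [h4]
    exact (convex_convexHull ℝ _) hc' hb' (by linarith) ht.le (by ring)
  · exact hin z (Or.inr h1) h2

theorem cut_one {W : Finset ℂ} {c a b : ℂ} (h : Frame W c a b) {s t : ℝ} (hs : 0 < s) (hs1 : s < 1)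
    (ht : 0 < t) (ht1 : t < 1) :
    Frame (insert (fr c a b 0 t) W) (fr c a b s 0) a (fr c a b 0 t) where
  aW := Finset.mem_insert_of_mem h.aW
  bW := Finset.mem_insert_self _ _
  nd := by
    have h1 : (a.re - (fr c a b s 0).re) * ((fr c a b 0 t).im - (fr c a b s 0).im) -
        (a.im - (fr c a b s 0).im) * ((fr c a b 0 t).re - (fr c a b s 0).re) =
        (1 - s) * t * ((a.re - c.re) * (b.im - c.im) - (a.im - c.im) * (b.re - c.re)) := by
      simp only [fr]
      ring
    rw [h1]
    refine mul_ne_zero (mul_ne_zero (by linarith) ht.ne') h.nd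
  co := by
    intro w hw
    rw [Finset.mem_insert] at hw
    rcases hw with hw | hw
    · refine ⟨0, 1, ?_, le_refl _, zero_le_one, by norm_num, fun _ => one_pos, fun h0 => absurd hw h0⟩
      rw [cut_fr_b, hw]
    · obtain ⟨x, y, h1, h2, h3, h4, h5, h6⟩ := h.co w hw
      have hs1' : 0 < 1 - s := by linarith
      have hyt : y ≤ y / t := by
        rw [le_div_iff₀ ht]
        nlinarith
      have hyt0 : 0 ≤ y / t := div_nonneg h3 ht.le
      have hpos : 0 < x - s + s * (y / t) := by
        rcases h3.eq_or_lt with h0 | h0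
        · have hx1 : 1 ≤ x := by linarith
          rw [← h0, zero_div, mul_zero]
          linarith
        · have h7 : y < y / t := by
            rw [lt_div_iff₀ ht]
            nlinarith
          have h8 : s * y < s * (y / t) := mul_lt_mul_of_pos_left h7 hs
          nlinarith
      refine ⟨(x - s + s * (y / t)) / (1 - s), y / t, ?_, ?_, hyt0, ?_, ?_, ?_⟩
      · rw [h1]
        apply Complex.ext
        · simp only [fr]
          field_simp
          ring
        · simp only [fr]
          field_simp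
          ring
      · exact (div_pos hpos hs1').le
      · have h7 : (x - s + s * (y / t)) / (1 - s) + y / t = (x - s + y / t) / (1 - s) := by
          field_simp
          ring
        rw [h7, le_div_iff₀ hs1']
        linarith
      · intro hwa
        exact div_pos (h5 hwa) ht
      · intro _
        exact div_pos hpos hs1'
  ext := cut_ext h hs hs1 ht ht1


/-- after cutting off the corner `c` the new vertices `A`, `B` are corners with frames -/
theorem cut {W : Finset ℂ} {c a b : ℂ} (h : Frame W c a b) {s t : ℝ} (hs : 0 < s) (hs1 : s < 1)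
    (ht : 0 < t) (ht1 : t < 1) :
    Frame (insert (fr c a b 0 t) W) (fr c a b s 0) a (fr c a b 0 t) ∧
    Frame (insert (fr c a b s 0) W) (fr c a b 0 t) (fr c a b s 0) b ∧
    fr c a b s 0 ∉ W ∧ fr c a b 0 t ∉ W ∧ fr c a b s 0 ≠ fr c a b 0 t ∧ c ∉ W := by
  refine ⟨cut_one h hs hs1 ht ht1, ?_, cut_basic h hs hs1 ht1⟩
  have h1 := cut_swap (cut_one (cut_swap h) ht ht1 hs hs1)
  rw [show fr c b a t 0 = fr c a b 0 t from (cut_fr_swap c a b 0 t).symm,
    show fr c b a 0 s = fr c a b s 0 from (cut_fr_swap c a b s 0).symm] at h1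
  exact h1

theorem cone_first {W : Finset ℂ} {c a b : ℂ} (h : Frame W c a b) :
    ∀ z ∈ convexHull ℝ ((insert c W : Finset ℂ) : Set ℂ),
      ∃ x y : ℝ, z = fr c a b x y ∧ 0 ≤ x ∧ 0 ≤ y := by
  have hconv : Convex ℝ {z : ℂ | ∃ x y : ℝ, z = fr c a b x y ∧ 0 ≤ x ∧ 0 ≤ y} := by
    rintro z ⟨x, y, rfl, hx, hy⟩ z' ⟨x', y', rfl, hx', hy'⟩ s t hs ht hst
    refine ⟨s * x + t * x', s * y + t * y', ?_, by positivity, by positivity⟩
    have ht' : t = 1 - s := by linarith
    subst ht'
    apply Complex.ext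
    · simp [fr]
      ring
    · simp [fr]
      ring
  have hsub : ((insert c W : Finset ℂ) : Set ℂ) ⊆
      {z : ℂ | ∃ x y : ℝ, z = fr c a b x y ∧ 0 ≤ x ∧ 0 ≤ y} := by
    intro w hw
    rw [Finset.coe_insert, Set.mem_insert_iff] at hw
    rcases hw with rfl | hw
    · exact ⟨0, 0, by simp [fr], le_rfl, le_rfl⟩
    · obtain ⟨x, y, h1, h2, h3, _⟩ := h.co w hw
      exact ⟨x, y, h1, h2, h3⟩
  intro z hz
  exact convexHull_min hsub hconv hz

theorem cone_delta (v : ℂ) (ε : ℝ) (hε : 0 < ε) : ∃ δ : ℝ, 0 < δ ∧ δ * ‖v‖ < ε := by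
  refine ⟨ε / (‖v‖ + 1), by positivity, ?_⟩
  have h1 : 0 < ‖v‖ + 1 := by positivity
  rw [div_mul_eq_mul_div, div_lt_iff₀ h1]
  nlinarith

/-- coordinates of points of the polygon and of its interior -/
theorem cone {W : Finset ℂ} {c a b : ℂ} (h : Frame W c a b) :
    (∀ z ∈ convexHull ℝ ((insert c W : Finset ℂ) : Set ℂ),
      ∃ x y : ℝ, z = fr c a b x y ∧ 0 ≤ x ∧ 0 ≤ y) ∧
    (∀ z ∈ interior (convexHull ℝ ((insert c W : Finset ℂ) : Set ℂ)),
      ∃ x y : ℝ, z = fr c a b x y ∧ 0 < x ∧ 0 < y) := by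
  refine ⟨cone_first h, ?_⟩
  intro z hz
  obtain ⟨ε, hε, hb⟩ := Metric.isOpen_iff.1 isOpen_interior z hz
  have hb' : Metric.ball z ε ⊆ convexHull ℝ ((insert c W : Finset ℂ) : Set ℂ) :=
    hb.trans interior_subset
  obtain ⟨x, y, hzxy, hx, hy⟩ := cone_first h z (interior_subset hz)
  refine ⟨x, y, hzxy, ?_, ?_⟩
  · by_contra hneg
    have hx0 : x = 0 := le_antisymm (not_lt.1 hneg) hx
    obtain ⟨δ, hδ, hd⟩ := cone_delta (a - c) ε hε
    have hm : fr c a b (x - δ) y ∈ Metric.ball z ε := by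
      rw [Metric.mem_ball, dist_eq_norm]
      have : fr c a b (x - δ) y - z = (-(δ : ℂ)) * (a - c) := by
        rw [hzxy]
        apply Complex.ext
        · simp [fr]
          ring
        · simp [fr]
          ring
      rw [this, norm_mul, norm_neg, Complex.norm_real, Real.norm_eq_abs, abs_of_pos hδ]
      exact hd
    obtain ⟨x', y', he, hx', hy'⟩ := cone_first h _ (hb' hm)
    have := (fr_inj h he).1
    linarith
  · by_contra hneg
    have hy0 : y = 0 := le_antisymm (not_lt.1 hneg) hy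
    obtain ⟨δ, hδ, hd⟩ := cone_delta (b - c) ε hε
    have hm : fr c a b x (y - δ) ∈ Metric.ball z ε := by
      rw [Metric.mem_ball, dist_eq_norm]
      have : fr c a b x (y - δ) - z = (-(δ : ℂ)) * (b - c) := by
        rw [hzxy]
        apply Complex.ext
        · simp [fr]
          ring
        · simp [fr]
          ring
      rw [this, norm_mul, norm_neg, Complex.norm_real, Real.norm_eq_abs, abs_of_pos hδ]
      exact hd
    obtain ⟨x', y', he, hx', hy'⟩ := cone_first h _ (hb' hm)
    have := (fr_inj h he).2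
    linarith

/-- a line through the corner `c` which meets the interior of the polygon -/
theorem line_through {W : Finset ℂ} {c a b : ℂ} (h : Frame W c a b) (l : Line) (hc : c ∈ l.pts)
    (hl : (l.pts ∩ interior (convexHull ℝ ((insert c W : Finset ℂ) : Set ℂ))).Nonempty) :
    ∃ d e : ℝ, 0 < d ∧ 0 < e ∧ ∀ x y : ℝ, fr c a b x y ∈ l.pts ↔ x * e = y * d := by
  have hc' : l.a * c.re + l.b * c.im = l.k := hc
  have hiff : ∀ x y : ℝ, fr c a b x y ∈ l.pts ↔
      x * (l.a * (a.re - c.re) + l.b * (a.im - c.im)) +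
        y * (l.a * (b.re - c.re) + l.b * (b.im - c.im)) = 0 := by
    intro x y
    show l.a * (c.re + x * (a.re - c.re) + y * (b.re - c.re)) +
      l.b * (c.im + x * (a.im - c.im) + y * (b.im - c.im)) = l.k ↔ _
    constructor
    · intro h
      linarith
    · intro h
      linarith
  obtain ⟨z, hz1, hz2⟩ := hl
  obtain ⟨x0, y0, rfl, hx0, hy0⟩ := (cone h).2 z hz2
  have h0 := (hiff x0 y0).1 hz1
  set A := l.a * (a.re - c.re) + l.b * (a.im - c.im) with hA
  set B := l.a * (b.re - c.re) + l.b * (b.im - c.im) with hB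
  have hA0 : A ≠ 0 := by
    intro hA0
    have hB0 : B = 0 := by
      rw [hA0, mul_zero, zero_add] at h0
      exact (mul_eq_zero.1 h0).resolve_left hy0.ne'
    have hnd := h.nd
    have e1 : l.a * ((a.re - c.re) * (b.im - c.im) - (a.im - c.im) * (b.re - c.re)) = 0 := by
      have : l.a * ((a.re - c.re) * (b.im - c.im) - (a.im - c.im) * (b.re - c.re)) =
          A * (b.im - c.im) - B * (a.im - c.im) := by
        rw [hA, hB]
        ring
      rw [this, hA0, hB0]
      ring
    have e2 : l.b * ((a.re - c.re) * (b.im - c.im) - (a.im - c.im) * (b.re - c.re)) = 0 := by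
      have : l.b * ((a.re - c.re) * (b.im - c.im) - (a.im - c.im) * (b.re - c.re)) =
          B * (a.re - c.re) - A * (b.re - c.re) := by
        rw [hA, hB]
        ring
      rw [this, hA0, hB0]
      ring
    rcases l.nz with h1 | h1
    · exact h1 ((mul_eq_zero.1 e1).resolve_right hnd)
    · exact h1 ((mul_eq_zero.1 e2).resolve_right hnd)
  rcases lt_or_gt_of_ne hA0 with hneg | hpos
  · have hB1 : 0 < B := by
      by_contra hcon
      push Not at hcon
      nlinarith [mul_neg_of_pos_of_neg hx0 hneg, mul_nonneg hy0.le (neg_nonneg.2 hcon)]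
    refine ⟨B, -A, hB1, by linarith, fun x y => ?_⟩
    rw [hiff]
    constructor
    · intro h
      linarith
    · intro h
      linarith
  · have hB1 : B < 0 := by
      by_contra hcon
      push Not at hcon
      nlinarith [mul_pos hx0 hpos, mul_nonneg hy0.le hcon]
    refine ⟨-B, A, by linarith, hpos, fun x y => ?_⟩
    rw [hiff]
    constructor
    · intro h
      linarith
    · intro h
      linarith

theorem avoid_aux (c a b : ℂ) (l : Line) (hc : c ∉ l.pts) :
    ∃ r : ℝ, 0 < r ∧ r < 1 ∧ ∀ x y : ℝ, 0 ≤ x → x ≤ r → 0 ≤ y → y ≤ r →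
      fr c a b x y ∉ l.pts := by
  have hg : l.a * c.re + l.b * c.im - l.k ≠ 0 := by
    intro h
    apply hc
    show l.a * c.re + l.b * c.im = l.k
    linarith
  set G : ℝ := l.a * c.re + l.b * c.im - l.k with hG
  set A : ℝ := l.a * (a.re - c.re) + l.b * (a.im - c.im) with hA
  set B : ℝ := l.a * (b.re - c.re) + l.b * (b.im - c.im) with hB
  have hG0 : 0 < |G| := abs_pos.2 hg
  have hden : 0 < |A| + |B| + |G| + 1 := by positivity
  refine ⟨|G| / (2 * (|A| + |B| + |G| + 1)), by positivity, ?_, ?_⟩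
  · rw [div_lt_one (by positivity)]
    nlinarith [abs_nonneg A, abs_nonneg B]
  · intro x y hx hxr hy hyr hmem
    have h1 : l.a * (fr c a b x y).re + l.b * (fr c a b x y).im = l.k := hmem
    have h2 : G + x * A + y * B = 0 := by
      have e1 : (fr c a b x y).re = c.re + x * (a.re - c.re) + y * (b.re - c.re) := rfl
      have e2 : (fr c a b x y).im = c.im + x * (a.im - c.im) + y * (b.im - c.im) := rfl
      rw [e1, e2] at h1
      rw [hG, hA, hB]
      linarith
    have h3 : |G| ≤ x * |A| + y * |B| := by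
      have e : G = -(x * A + y * B) := by linarith
      rw [e, abs_neg]
      refine (abs_add_le _ _).trans ?_
      rw [abs_mul, abs_mul, abs_of_nonneg hx, abs_of_nonneg hy]
    have h4 : x * |A| ≤ |G| / (2 * (|A| + |B| + |G| + 1)) * |A| := by gcongr
    have h5 : y * |B| ≤ |G| / (2 * (|A| + |B| + |G| + 1)) * |B| := by gcongr
    have h6 : |G| / (2 * (|A| + |B| + |G| + 1)) * (|A| + |B|) ≤ |G| / 2 := by
      rw [div_mul_eq_mul_div, div_le_div_iff₀ (by positivity) (by norm_num)]
      nlinarith [abs_nonneg A, abs_nonneg B, abs_nonneg G]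
    linarith

/-- finitely many lines which do not pass through `c` avoid a neighbourhood of `c` -/
theorem avoid (c a b : ℂ) (L : Set Line) (hL : L.Finite) (hc : ∀ l ∈ L, c ∉ l.pts) :
    ∃ r : ℝ, 0 < r ∧ r < 1 ∧ ∀ l ∈ L, ∀ x y : ℝ, 0 ≤ x → x ≤ r → 0 ≤ y → y ≤ r →
      fr c a b x y ∉ l.pts := by
  induction L, hL using Set.Finite.induction_on with
  | empty => exact ⟨1 / 2, by norm_num, by norm_num, fun l hl => absurd hl (Set.notMem_empty l)⟩
  | insert _ _ ih =>
    rename_i l0 L0 _ _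
    obtain ⟨r, hr0, hr1, hr⟩ := ih (fun l hl => hc l (Set.mem_insert_of_mem _ hl))
    obtain ⟨s, hs0, hs1, hs⟩ := avoid_aux c a b l0 (hc l0 (Set.mem_insert _ _))
    refine ⟨min r s, lt_min hr0 hs0, (min_le_left _ _).trans_lt hr1, ?_⟩
    intro l hl x y hx hxr hy hyr
    rcases hl with rfl | hl
    · exact hs x y hx (hxr.trans (min_le_right _ _)) hy (hyr.trans (min_le_right _ _))
    · exact hr l hl x y hx (hxr.trans (min_le_left _ _)) hy (hyr.trans (min_le_left _ _))

/-- small cuts do not change the intersections with the lines which avoid a neighbourhood of `c` -/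
theorem same {W : Finset ℂ} {c a b : ℂ} (h : Frame W c a b) {s t r : ℝ} (hs : 0 < s) (hsr : s ≤ r)
    (ht : 0 < t) (htr : t ≤ r) (hr : r < 1) (l : Line)
    (hl : ∀ x y : ℝ, 0 ≤ x → x ≤ r → 0 ≤ y → y ≤ r → fr c a b x y ∉ l.pts) :
    l.pts ∩ convexHull ℝ ((insert (fr c a b s 0) (insert (fr c a b 0 t) W) : Finset ℂ) : Set ℂ) =
      l.pts ∩ convexHull ℝ ((insert c W : Finset ℂ) : Set ℂ) := by
  have hs1 : s < 1 := hsr.trans_lt hr
  have ht1 : t < 1 := htr.trans_lt hr
  have hc : c ∈ convexHull ℝ ((insert c W : Finset ℂ) : Set ℂ) :=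
    subset_convexHull ℝ _ (by simp)
  have hW : ∀ w ∈ W, w ∈ convexHull ℝ ((insert c W : Finset ℂ) : Set ℂ) := fun w hw =>
    subset_convexHull ℝ _ (by simp [hw])
  have hconv : Convex ℝ (convexHull ℝ ((insert c W : Finset ℂ) : Set ℂ)) := convex_convexHull ℝ _
  have e1 : fr c a b s 0 = (1 - s) • c + s • a := by
    apply Complex.ext
    · simp [fr]; ring
    · simp [fr]; ring
  have e2 : fr c a b 0 t = (1 - t) • c + t • b := by
    apply Complex.ext
    · simp [fr]; ring
    · simp [fr]; ring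
  have m1 : fr c a b s 0 ∈ convexHull ℝ ((insert c W : Finset ℂ) : Set ℂ) := by
    rw [e1]
    exact hconv hc (hW a h.aW) (by linarith) hs.le (by ring)
  have m2 : fr c a b 0 t ∈ convexHull ℝ ((insert c W : Finset ℂ) : Set ℂ) := by
    rw [e2]
    exact hconv hc (hW b h.bW) (by linarith) ht.le (by ring)
  apply Set.Subset.antisymm
  · rintro z ⟨hz1, hz2⟩
    refine ⟨hz1, convexHull_min ?_ hconv hz2⟩
    intro w hw
    simp only [Finset.coe_insert, Set.mem_insert_iff, Finset.mem_coe] at hw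
    rcases hw with rfl | rfl | hw
    · exact m1
    · exact m2
    · exact hW w hw
  · rintro z ⟨hz1, hz2⟩
    refine ⟨hz1, ?_⟩
    rcases cover h hs hs1 ht ht1 z hz2 with h1 | ⟨x, y, hz, hx, hy, hxy⟩
    · exact h1
    · exfalso
      have h3 : 0 ≤ x / s := div_nonneg hx hs.le
      have h4 : 0 ≤ y / t := div_nonneg hy ht.le
      have h5 : x ≤ s := (div_le_one hs).1 (by linarith)
      have h6 : y ≤ t := (div_le_one ht).1 (by linarith)
      apply hl x y hx (h5.trans hsr) hy (h6.trans htr)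
      rw [← hz]
      exact hz1

theorem fill_aux (L : Set Line) (hL : L.Finite) (d : ℕ) : ∀ (W : Finset ℂ) (c a b : ℂ), Frame W c a b → 
    (∀ l ∈ L, c ∉ l.pts) → ∀ ε : ℝ, 0 < ε →
    ∃ S : Finset ℂ, S.card = W.card + 2 + d ∧ Ext S ∧ (W : Set ℂ) ⊆ S ∧
      convexHull ℝ (S : Set ℂ) ⊆ convexHull ℝ ((insert c W : Finset ℂ) : Set ℂ) ∧
      (∀ l ∈ L, l.pts ∩ convexHull ℝ (S : Set ℂ) =
        l.pts ∩ convexHull ℝ ((insert c W : Finset ℂ) : Set ℂ)) ∧
      c ∉ convexHull ℝ (S : Set ℂ) ∧ ∃ t : ℝ, 0 < t ∧ t < ε ∧ fr c a b 0 t ∈ S := by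
  induction d with
  | zero =>
    intro W c a b h hc ε hε
    obtain ⟨r, hr0, hr1, hr⟩ := avoid c a b L hL hc
    obtain ⟨s, hs⟩ : ∃ s, s = r / 2 := ⟨_, rfl⟩
    obtain ⟨t, ht⟩ : ∃ t, t = min (r / 2) (ε / 2) := ⟨_, rfl⟩
    have hs0 : 0 < s := by rw [hs]; linarith
    have hsr : s ≤ r := by rw [hs]; linarith
    have ht0 : 0 < t := by rw [ht]; exact lt_min (by linarith) (by linarith)
    have htr : t ≤ r := by rw [ht]; exact (min_le_left _ _).trans (by linarith)
    have hte : t < ε := by rw [ht]; exact (min_le_right _ _).trans_lt (by linarith)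
    obtain ⟨F1, F2, hA, hB, hAB, hcW⟩ := cut h hs0 (by linarith) ht0 (by linarith)
    obtain ⟨b1, b2⟩ := beyond h hs0 (by linarith) ht0 (by linarith)
    refine ⟨insert (fr c a b s 0) (insert (fr c a b 0 t) W), ?_, F1.ext, ?_, b1, ?_, ?_, t, ht0, hte, ?_⟩
    · rw [Finset.card_insert_of_notMem, Finset.card_insert_of_notMem hB]
      simp only [Finset.mem_insert, not_or]
      exact ⟨hAB, hA⟩
    · intro w hw
      simp only [Finset.coe_insert, Set.mem_insert_iff]
      exact Or.inr (Or.inr hw)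
    · intro l hl
      exact same h hs0 hsr ht0 htr hr1 l (hr l hl)
    · intro hcon
      have e : c = fr c a b 0 0 := by
        apply Complex.ext <;> simp [fr]
      rw [e] at hcon
      have e2 : fr c a b 0 0 = c := e.symm
      have h3 : fr c a b 0 0 ∈ convexHull ℝ ((insert (fr c a b s 0) (insert (fr c a b 0 t) W) : Finset ℂ) : Set ℂ) := by
        rw [e2] at hcon ⊢
        exact hcon
      have := b2 0 0 h3
      simp at this
      linarith
    · simp
  | succ d ih =>
    intro W c a b h hc ε hε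
    obtain ⟨r, hr0, hr1, hr⟩ := avoid c a b L hL hc
    obtain ⟨s, hs⟩ : ∃ s, s = r / 2 := ⟨_, rfl⟩
    obtain ⟨t, ht⟩ : ∃ t, t = min (r / 2) (ε / 2) := ⟨_, rfl⟩
    have hs0 : 0 < s := by rw [hs]; linarith
    have hsr : s ≤ r := by rw [hs]; linarith
    have ht0 : 0 < t := by rw [ht]; exact lt_min (by linarith) (by linarith)
    have htr : t ≤ r := by rw [ht]; exact (min_le_left _ _).trans (by linarith)
    have hte : t < ε := by rw [ht]; exact (min_le_right _ _).trans_lt (by linarith)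
    obtain ⟨F1, F2, hA, hB, hAB, hcW⟩ := cut h hs0 (by linarith) ht0 (by linarith)
    obtain ⟨b1, b2⟩ := beyond h hs0 (by linarith) ht0 (by linarith)
    obtain ⟨S, S1, S2, S3, S4, S5, S6, _⟩ := ih _ _ _ _ F1 
      (fun l hl => hr l hl s 0 hs0.le hsr le_rfl hr0.le) 1 one_pos
    have hBS : fr c a b 0 t ∈ S := by
      have : fr c a b 0 t ∈ ((insert (fr c a b 0 t) W : Finset ℂ) : Set ℂ) := by simp
      exact S3 this
    refine ⟨S, ?_, S2, ?_, S4.trans b1, ?_, ?_, t, ht0, hte, hBS⟩
    · rw [S1, Finset.card_insert_of_notMem hB]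
      ring
    · intro w hw
      apply S3
      simp only [Finset.coe_insert, Set.mem_insert_iff]
      exact Or.inr hw
    · intro l hl
      rw [S5 l hl]
      exact same h hs0 hsr ht0 htr hr1 l (hr l hl)
    · intro hcon
      have hcon' := S4 hcon
      have e2 : fr c a b 0 0 = c := by
        apply Complex.ext <;> simp [fr]
      have := b2 0 0 (by rw [e2]; exact hcon')
      simp at this
      linarith

/-- polygons with any larger number of vertices: cut repeatedly near the corner `c`, without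
changing the intersections with finitely many lines which do not pass through `c` -/
theorem fill {W : Finset ℂ} {c a b : ℂ} (h : Frame W c a b) (L : Set Line) (hL : L.Finite)
    (hc : ∀ l ∈ L, c ∉ l.pts) (n : ℕ) (hn : W.card + 2 ≤ n) (ε : ℝ) (hε : 0 < ε) :
    ∃ S : Finset ℂ, S.card = n ∧ Ext S ∧ (W : Set ℂ) ⊆ S ∧
      convexHull ℝ (S : Set ℂ) ⊆ convexHull ℝ ((insert c W : Finset ℂ) : Set ℂ) ∧
      (∀ l ∈ L, l.pts ∩ convexHull ℝ (S : Set ℂ) =
        l.pts ∩ convexHull ℝ ((insert c W : Finset ℂ) : Set ℂ)) ∧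
      c ∉ convexHull ℝ (S : Set ℂ) ∧ ∃ t : ℝ, 0 < t ∧ t < ε ∧ fr c a b 0 t ∈ S := by
  obtain ⟨d, rfl⟩ := Nat.exists_eq_add_of_le hn
  exact fill_aux L hL d W c a b h hc ε hε

/-- two different polygons -/
theorem two {W : Finset ℂ} {c a b : ℂ} (h : Frame W c a b) (L : Set Line) (hL : L.Finite)
    (hc : ∀ l ∈ L, c ∉ l.pts) (n : ℕ) (hn : W.card + 2 ≤ n) :
    ∃ S S' : Finset ℂ, S.card = n ∧ S'.card = n ∧ Ext S ∧ Ext S' ∧ (W : Set ℂ) ⊆ S ∧
      (W : Set ℂ) ⊆ S' ∧
      (∀ l ∈ L, l.pts ∩ convexHull ℝ (S : Set ℂ) =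
        l.pts ∩ convexHull ℝ ((insert c W : Finset ℂ) : Set ℂ)) ∧
      (∀ l ∈ L, l.pts ∩ convexHull ℝ (S' : Set ℂ) =
        l.pts ∩ convexHull ℝ ((insert c W : Finset ℂ) : Set ℂ)) ∧
      convexHull ℝ (S : Set ℂ) ≠ convexHull ℝ (S' : Set ℂ) := by
  obtain ⟨S, h1, h2, h3, -, h4, h5, -⟩ := fill h L hL hc n hn 1 one_pos
  have hclosed : IsClosed (convexHull ℝ (S : Set ℂ)) :=
    (S.finite_toSet.isCompact_convexHull ℝ).isClosed
  have hcont : Continuous fun t : ℝ => fr c a b 0 t := by
    have e1 : (fun t : ℝ => fr c a b 0 t) = fun t : ℝ =>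
        ((c.re + 0 * (a.re - c.re) + t * (b.re - c.re) : ℝ) : ℂ) +
        ((c.im + 0 * (a.im - c.im) + t * (b.im - c.im) : ℝ) : ℂ) * Complex.I := by
      funext t
      unfold fr
      exact Complex.mk_eq_add_mul_I _ _
    rw [e1]
    fun_prop
  have h0 : fr c a b 0 0 = c := by
    unfold fr
    apply Complex.ext <;> simp
  have hopen : IsOpen {t : ℝ | fr c a b 0 t ∈ (convexHull ℝ (S : Set ℂ))ᶜ} :=
    hclosed.isOpen_compl.preimage hcont
  have hmem : (0 : ℝ) ∈ {t : ℝ | fr c a b 0 t ∈ (convexHull ℝ (S : Set ℂ))ᶜ} := by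
    change fr c a b 0 0 ∈ (convexHull ℝ (S : Set ℂ))ᶜ
    rw [h0]
    exact h5
  obtain ⟨ε, hε, hball⟩ := Metric.isOpen_iff.1 hopen 0 hmem
  obtain ⟨S', g1, g2, g3, -, g4, -, t, ht0, ht1, ht2⟩ := fill h L hL hc n hn ε hε
  refine ⟨S, S', h1, g1, h2, g2, h3, g3, h4, g4, fun heq => ?_⟩
  have hb : t ∈ Metric.ball (0 : ℝ) ε := by
    rw [Metric.mem_ball, Real.dist_eq, sub_zero, abs_of_pos ht0]
    exact ht1
  apply hball hb
  rw [heq]
  exact subset_convexHull ℝ _ ht2

theorem family_aux {W : Finset ℂ} {c a b : ℂ} (h : Frame W c a b) (l : Line) {d e : ℝ} (hd : 0 < d)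
    (he : 0 < e) (hl : ∀ x y : ℝ, fr c a b x y ∈ l.pts ↔ x * e = y * d) (hd1 : 3 * d < 1)
    (he1 : 3 * e < 1) {θ : ℝ} (h1 : 1 / 3 < θ) (h2 : θ < 2 / 3) (z : ℂ) :
    z ∈ l.pts ∩ convexHull ℝ ((insert (fr c a b (d / θ) 0) (insert (fr c a b 0 (e / (1 - θ))) W) :
        Finset ℂ) : Set ℂ) ↔
      (z ∈ l.pts ∧ z ∈ convexHull ℝ ((insert c W : Finset ℂ) : Set ℂ) ∧
        ∃ x y : ℝ, z = fr c a b x y ∧ d ≤ x) := by
  have hθ : 0 < θ := by linarith
  have hθ' : 0 < 1 - θ := by linarith
  have hs : 0 < d / θ := div_pos hd hθ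
  have hs1 : d / θ < 1 := by rw [div_lt_one hθ]; linarith
  have ht : 0 < e / (1 - θ) := div_pos he hθ'
  have ht1 : e / (1 - θ) < 1 := by rw [div_lt_one hθ']; linarith
  have key : ∀ x y : ℝ, x * e = y * d → x / (d / θ) + y / (e / (1 - θ)) = x / d := by
    intro x y hxy
    have hy : y = x * e / d := by field_simp; linarith
    rw [hy]
    field_simp
    ring
  constructor
  · rintro ⟨hz, hz'⟩
    have hb := beyond h hs hs1 ht ht1
    have hold := hb.1 hz'
    obtain ⟨x, y, hxy, hx, hy⟩ := (cone h).1 z hold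
    refine ⟨hz, hold, x, y, hxy, ?_⟩
    have hlxy : x * e = y * d := (hl x y).1 (hxy ▸ hz)
    have h3 := hb.2 x y (hxy ▸ hz')
    rw [key x y hlxy, le_div_iff₀ hd] at h3
    linarith
  · rintro ⟨hz, hold, x, y, hxy, hdx⟩
    refine ⟨hz, ?_⟩
    rcases cover h hs hs1 ht ht1 z hold with hnew | ⟨x', y', hxy', hx', hy', hle⟩
    · exact hnew
    · have hinj := fr_inj h (hxy.symm.trans hxy')
      have hlxy : x * e = y * d := (hl x y).1 (hxy ▸ hz)
      rw [← hinj.1, ← hinj.2, key x y hlxy, div_le_one hd] at hle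
      have hxd : x = d := le_antisymm hle hdx
      have hye : y = e := by
        rw [hxd] at hlxy
        have h4 : d * (e - y) = 0 := by linarith
        rcases mul_eq_zero.1 h4 with h5 | h5
        · exact absurd h5 hd.ne'
        · linarith
      have hA : fr c a b (d / θ) 0 ∈ convexHull ℝ ((insert (fr c a b (d / θ) 0)
          (insert (fr c a b 0 (e / (1 - θ))) W) : Finset ℂ) : Set ℂ) :=
        subset_convexHull ℝ _ (by simp)
      have hB : fr c a b 0 (e / (1 - θ)) ∈ convexHull ℝ ((insert (fr c a b (d / θ) 0)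
          (insert (fr c a b 0 (e / (1 - θ))) W) : Finset ℂ) : Set ℂ) :=
        subset_convexHull ℝ _ (by simp)
      have hconv := (convex_convexHull ℝ ((insert (fr c a b (d / θ) 0)
          (insert (fr c a b 0 (e / (1 - θ))) W) : Finset ℂ) : Set ℂ)) hA hB hθ.le hθ'.le
            (by ring)
      have heq : z = θ • fr c a b (d / θ) 0 + (1 - θ) • fr c a b 0 (e / (1 - θ)) := by
        rw [hxy, hxd, hye]
        apply Complex.ext
        · simp only [fr, Complex.add_re, Complex.real_smul, Complex.mul_re, Complex.ofReal_re,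
            Complex.ofReal_im]
          field_simp
          ring
        · simp only [fr, Complex.add_im, Complex.real_smul, Complex.mul_im, Complex.ofReal_re,
            Complex.ofReal_im]
          field_simp
          ring
      rw [heq]
      exact hconv

/-- the one-parameter family of cuts through a point of the line `l` near the corner `c` -/
theorem family {W : Finset ℂ} {c a b : ℂ} (h : Frame W c a b) (l : Line) {d e : ℝ} (hd : 0 < d)
    (he : 0 < e) (hl : ∀ x y : ℝ, fr c a b x y ∈ l.pts ↔ x * e = y * d) (hd1 : 3 * d < 1)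
    (he1 : 3 * e < 1) {θ θ' : ℝ} (h1 : 1 / 3 < θ) (h2 : θ < 2 / 3) (h1' : 1 / 3 < θ')
    (h2' : θ' < 2 / 3) :
    l.pts ∩ convexHull ℝ ((insert (fr c a b (d / θ) 0) (insert (fr c a b 0 (e / (1 - θ))) W) :
        Finset ℂ) : Set ℂ) =
      l.pts ∩ convexHull ℝ ((insert (fr c a b (d / θ') 0) (insert (fr c a b 0 (e / (1 - θ'))) W) :
        Finset ℂ) : Set ℂ) := by
  ext z
  rw [family_aux h l hd he hl hd1 he1 h1 h2 z, family_aux h l hd he hl hd1 he1 h1' h2' z]

theorem generic_aux (A B s t : ℝ) (hst : s ≠ t) (h1 : A + s * B = 0) (h2 : A + t * B = 0) :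
    A = 0 ∧ B = 0 := by
  have h3 : (s - t) * B = 0 := by linarith
  have hB : B = 0 := by
    rcases mul_eq_zero.1 h3 with h | h
    · exact absurd (sub_eq_zero.1 h) hst
    · exact h
  refine ⟨?_, hB⟩
  rw [hB] at h1
  linarith

theorem generic_a {c a b : ℂ} (l : Line) (ha : c ∈ l.pts → a ∉ l.pts) (s t : ℝ)
    (hs : fr c a b s 0 ∈ l.pts) (ht : fr c a b t 0 ∈ l.pts) : s = t := by
  by_contra hst
  simp only [Line.pts, Set.mem_setOf_eq, fr] at hs ht ha
  have h := generic_aux (l.a * c.re + l.b * c.im - l.k)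
    (l.a * (a.re - c.re) + l.b * (a.im - c.im)) s t hst (by linarith) (by linarith)
  exact ha (by linarith [h.1]) (by linarith [h.1, h.2])

theorem generic_b {c a b : ℂ} (l : Line) (hb : c ∈ l.pts → b ∉ l.pts) (s t : ℝ)
    (hs : fr c a b 0 s ∈ l.pts) (ht : fr c a b 0 t ∈ l.pts) : s = t := by
  by_contra hst
  simp only [Line.pts, Set.mem_setOf_eq, fr] at hs ht hb
  have h := generic_aux (l.a * c.re + l.b * c.im - l.k)
    (l.a * (b.re - c.re) + l.b * (b.im - c.im)) s t hst (by linarith) (by linarith)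
  exact hb (by linarith [h.1]) (by linarith [h.1, h.2])

/-- generic choice of the parameter: the new vertices are not on any of finitely many lines (none of
which contains `c` and `a`, or `c` and `b`) -/
theorem generic {c a b : ℂ} (L : Set Line) (hL : L.Finite)
    (ha : ∀ l ∈ L, c ∈ l.pts → a ∉ l.pts) (hb : ∀ l ∈ L, c ∈ l.pts → b ∉ l.pts)
    {d e : ℝ} (hd : 0 < d) (he : 0 < e) :
    ∃ θ : ℝ, 1 / 3 < θ ∧ θ < 2 / 3 ∧ ∀ l ∈ L, fr c a b (d / θ) 0 ∉ l.pts ∧
      fr c a b 0 (e / (1 - θ)) ∉ l.pts := by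
  have hfin : (⋃ l ∈ L, ({θ : ℝ | (1 / 3 < θ ∧ θ < 2 / 3) ∧ fr c a b (d / θ) 0 ∈ l.pts} ∪
      {θ : ℝ | (1 / 3 < θ ∧ θ < 2 / 3) ∧ fr c a b 0 (e / (1 - θ)) ∈ l.pts})).Finite := by
    refine Set.Finite.biUnion hL fun l hl => Set.Finite.union ?_ ?_
    · refine Set.Subsingleton.finite fun θ hθ θ' hθ' => ?_
      have h1 := generic_a l (ha l hl) _ _ hθ.2 hθ'.2
      have h2 : (0 : ℝ) < θ := by linarith [hθ.1.1]
      have h3 : (0 : ℝ) < θ' := by linarith [hθ'.1.1]
      rw [div_eq_div_iff h2.ne' h3.ne'] at h1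
      exact (mul_left_cancel₀ hd.ne' h1).symm
    · refine Set.Subsingleton.finite fun θ hθ θ' hθ' => ?_
      have h1 := generic_b l (hb l hl) _ _ hθ.2 hθ'.2
      have h2 : (0 : ℝ) < 1 - θ := by linarith [hθ.1.2]
      have h3 : (0 : ℝ) < 1 - θ' := by linarith [hθ'.1.2]
      rw [div_eq_div_iff h2.ne' h3.ne'] at h1
      have h4 := mul_left_cancel₀ he.ne' h1
      linarith
  have hinf : (Set.Ioo (1 / 3 : ℝ) (2 / 3)).Infinite := Set.Ioo_infinite (by norm_num)
  obtain ⟨θ, hθ, hnot⟩ := (hinf.diff hfin).nonempty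
  refine ⟨θ, hθ.1, hθ.2, fun l hl => ⟨fun h => hnot ?_, fun h => hnot ?_⟩⟩
  · exact Set.mem_biUnion hl (Or.inl ⟨⟨hθ.1, hθ.2⟩, h⟩)
  · exact Set.mem_biUnion hl (Or.inr ⟨⟨hθ.1, hθ.2⟩, h⟩)

/-- the initial state: a quadrilateral with an open corner, and `p` inside the other three vertices -/
theorem init (p : ℂ) : ∃ (W : Finset ℂ) (c a b : ℂ), Frame W c a b ∧ W.card = 3 ∧
    p ∈ interior (convexHull ℝ (W : Set ℂ)) := by
  classical
  set a : ℂ := ⟨p.re - 2, p.im + 1⟩ with ha
  set b : ℂ := ⟨p.re + 2, p.im + 1⟩ with hb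
  set t : ℂ := ⟨p.re, p.im - 3⟩ with ht
  set c : ℂ := ⟨p.re, p.im + 2⟩ with hc
  have are : a.re = p.re - 2 := rfl
  have aim : a.im = p.im + 1 := rfl
  have bre : b.re = p.re + 2 := rfl
  have bim : b.im = p.im + 1 := rfl
  have tre : t.re = p.re := rfl
  have tim : t.im = p.im - 3 := rfl
  have cre : c.re = p.re := rfl
  have cim : c.im = p.im + 2 := rfl
  have hab : a ≠ b := fun h => by
    have := congrArg Complex.re h
    rw [are, bre] at this; linarith
  have hat : a ≠ t := fun h => by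
    have := congrArg Complex.re h
    rw [are, tre] at this; linarith
  have hbt : b ≠ t := fun h => by
    have := congrArg Complex.re h
    rw [bre, tre] at this; linarith
  refine ⟨{a, b, t}, c, a, b, ⟨by simp, by simp, ?_, ?_, ?_⟩, ?_, ?_⟩
  · simp only [are, aim, bre, bim, cre, cim]
    ring_nf
    norm_num
  · intro w hw
    simp only [Finset.mem_insert, Finset.mem_singleton] at hw
    rcases hw with rfl | rfl | rfl
    · refine ⟨1, 0, ?_, by norm_num, by norm_num, by norm_num, fun h => absurd rfl h, fun _ => by norm_num⟩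
      apply Complex.ext
      · simp [fr]
      · simp [fr]
    · refine ⟨0, 1, ?_, by norm_num, by norm_num, by norm_num, fun _ => by norm_num, fun h => absurd rfl h⟩
      apply Complex.ext
      · simp [fr]
      · simp [fr]
    · refine ⟨5 / 2, 5 / 2, ?_, by norm_num, by norm_num, by norm_num, fun _ => by norm_num, fun _ => by norm_num⟩
      apply Complex.ext
      · show t.re = c.re + 5 / 2 * (a.re - c.re) + 5 / 2 * (b.re - c.re)
        rw [are, bre, tre, cre]; ring
      · show t.im = c.im + 5 / 2 * (a.im - c.im) + 5 / 2 * (b.im - c.im)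
        simp only [aim, bim, tim, cim]; ring
  · intro w hw hmem
    simp only [Finset.mem_insert, Finset.mem_singleton] at hw
    rcases hw with rfl | rfl | rfl | rfl
    · -- c
      have h1 : convexHull ℝ (((insert c {a, b, t} : Finset ℂ) : Set ℂ) \ {c}) ⊆ {z : ℂ | z.im ≤ p.im + 1} := by
        refine convexHull_min ?_ (convex_halfSpace_im_le _)
        rintro z ⟨hz, hzc⟩
        simp only [Finset.coe_insert, Finset.coe_singleton, Set.mem_insert_iff, Set.mem_singleton_iff] at hz hzc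
        show z.im ≤ p.im + 1
        rcases hz with rfl | rfl | rfl | rfl
        · exact absurd rfl hzc
        · rw [aim]
        · rw [bim]
        · rw [tim]; linarith
      have h2 : c.im ≤ p.im + 1 := h1 hmem
      rw [cim] at h2; linarith
    · -- a
      have h1 : convexHull ℝ (((insert c {a, b, t} : Finset ℂ) : Set ℂ) \ {a}) ⊆ {z : ℂ | p.re ≤ z.re} := by
        refine convexHull_min ?_ (convex_halfSpace_re_ge _)
        rintro z ⟨hz, hzc⟩
        simp only [Finset.coe_insert, Finset.coe_singleton, Set.mem_insert_iff, Set.mem_singleton_iff] at hz hzc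
        show p.re ≤ z.re
        rcases hz with rfl | rfl | rfl | rfl
        · rw [cre]
        · exact absurd rfl hzc
        · rw [bre]; linarith
        · rw [tre]
      have h2 : p.re ≤ a.re := h1 hmem
      rw [are] at h2; linarith
    · -- b
      have h1 : convexHull ℝ (((insert c {a, b, t} : Finset ℂ) : Set ℂ) \ {b}) ⊆ {z : ℂ | z.re ≤ p.re} := by
        refine convexHull_min ?_ (convex_halfSpace_re_le _)
        rintro z ⟨hz, hzc⟩
        simp only [Finset.coe_insert, Finset.coe_singleton, Set.mem_insert_iff, Set.mem_singleton_iff] at hz hzc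
        show z.re ≤ p.re
        rcases hz with rfl | rfl | rfl | rfl
        · rw [cre]
        · rw [are]; linarith
        · exact absurd rfl hzc
        · rw [tre]
      have h2 : b.re ≤ p.re := h1 hmem
      rw [bre] at h2; linarith
    · -- t
      have h1 : convexHull ℝ (((insert c {a, b, t} : Finset ℂ) : Set ℂ) \ {t}) ⊆ {z : ℂ | p.im + 1 ≤ z.im} := by
        refine convexHull_min ?_ (convex_halfSpace_im_ge _)
        rintro z ⟨hz, hzc⟩
        simp only [Finset.coe_insert, Finset.coe_singleton, Set.mem_insert_iff, Set.mem_singleton_iff] at hz hzc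
        show p.im + 1 ≤ z.im
        rcases hz with rfl | rfl | rfl | rfl
        · rw [cim]; linarith
        · rw [aim]
        · rw [bim]
        · exact absurd rfl hzc
      have h2 : p.im + 1 ≤ t.im := h1 hmem
      rw [tim] at h2; linarith
  · rw [Finset.card_insert_of_notMem (by simp [hab, hat]), Finset.card_insert_of_notMem (by simp [hbt]),
      Finset.card_singleton]
  · rw [mem_interior]
    refine ⟨{z : ℂ | z.im < p.im + 1} ∩ ({z : ℂ | 0 < (3 + (z.im - p.im)) / 8 + (z.re - p.re) / 4} ∩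
      {z : ℂ | 0 < (3 + (z.im - p.im)) / 8 - (z.re - p.re) / 4}), ?_, ?_, ?_⟩
    · rintro z ⟨h1, h2, h3⟩
      have h1' : z.im < p.im + 1 := h1
      have h2' : 0 < (3 + (z.im - p.im)) / 8 + (z.re - p.re) / 4 := h2
      have h3' : 0 < (3 + (z.im - p.im)) / 8 - (z.re - p.re) / 4 := h3
      have key := (convex_convexHull ℝ (((({a, b, t} : Finset ℂ)) : Set ℂ))).sum_mem
        (t := (Finset.univ : Finset (Fin 3)))
        (w := ![(3 + (z.im - p.im)) / 8 - (z.re - p.re) / 4, (3 + (z.im - p.im)) / 8 + (z.re - p.re) / 4,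
          (1 - (z.im - p.im)) / 4]) (z := ![a, b, t]) (by
          intro i _
          fin_cases i
          · exact h3'.le
          · exact h2'.le
          · show 0 ≤ (1 - (z.im - p.im)) / 4
            linarith) (by
          rw [Fin.sum_univ_three]
          show (3 + (z.im - p.im)) / 8 - (z.re - p.re) / 4 + ((3 + (z.im - p.im)) / 8 + (z.re - p.re) / 4) +
            (1 - (z.im - p.im)) / 4 = 1
          ring) (by
          intro i _
          apply subset_convexHull
          fin_cases i <;> simp)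
      rw [Fin.sum_univ_three] at key
      have e : z = ((3 + (z.im - p.im)) / 8 - (z.re - p.re) / 4) • a +
          ((3 + (z.im - p.im)) / 8 + (z.re - p.re) / 4) • b + ((1 - (z.im - p.im)) / 4) • t := by
        apply Complex.ext
        · rw [Complex.add_re, Complex.add_re, Complex.smul_re, Complex.smul_re, Complex.smul_re,
            are, bre, tre]
          simp only [smul_eq_mul]
          ring
        · rw [Complex.add_im, Complex.add_im, Complex.smul_im, Complex.smul_im, Complex.smul_im]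
          simp only [smul_eq_mul, aim, bim, tim]
          ring
      rw [e]
      exact key
    · refine IsOpen.inter ?_ (IsOpen.inter ?_ ?_)
      · exact isOpen_lt Complex.continuous_im continuous_const
      · exact isOpen_lt continuous_const (by fun_prop)
      · exact isOpen_lt continuous_const (by fun_prop)
    · refine ⟨?_, ?_, ?_⟩
      · show p.im < p.im + 1
        linarith
      · show 0 < (3 + (p.im - p.im)) / 8 + (p.re - p.re) / 4
        norm_num
      · show 0 < (3 + (p.im - p.im)) / 8 - (p.re - p.re) / 4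
        norm_num

/-! ### transcripts -/

theorem run_succ (σ : Strategy) (P : Set ℂ) (j : ℕ) : run σ P (j + 1) =
    match σ (run σ P j) with
    | none => run σ P j
    | some l => run σ P j ++ [Metric.diam (l.pts ∩ P)] := rfl

/-- the lines used in the first `j` steps -/
def Asked (σ : Strategy) (Q : Set ℂ) (j : ℕ) : Set Line := {l | ∃ i < j, σ (run σ Q i) = some l}

theorem asked_succ (σ : Strategy) (Q : Set ℂ) (j : ℕ) :
    Asked σ Q (j + 1) = Asked σ Q j ∪ {l | σ (run σ Q j) = some l} := by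
  ext l
  constructor
  · rintro ⟨i, hi, h⟩
    rcases Nat.lt_succ_iff_lt_or_eq.mp hi with h1 | h1
    · exact Or.inl ⟨i, h1, h⟩
    · subst h1
      exact Or.inr h
  · rintro (⟨i, hi, h⟩ | h)
    · exact ⟨i, by omega, h⟩
    · exact ⟨j, by omega, h⟩

theorem some_finite (o : Option Line) : {l | o = some l}.Finite := by
  apply Set.Subsingleton.finite
  intro x hx y hy
  have hx' : o = some x := hx
  have hy' : o = some y := hy
  rw [hx'] at hy'
  exact Option.some.inj hy'

theorem asked_finite (σ : Strategy) (Q : Set ℂ) (j : ℕ) : (Asked σ Q j).Finite := by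
  induction j with
  | zero =>
    have : Asked σ Q 0 = ∅ := by
      ext l
      constructor
      · rintro ⟨i, hi, _⟩
        omega
      · intro h
        exact h.elim
    rw [this]
    exact Set.finite_empty
  | succ j ih =>
    rw [asked_succ]
    exact ih.union (some_finite _)

theorem agree_run {σ : Strategy} {Q R : Set ℂ} {j : ℕ}
    (h : ∀ l ∈ Asked σ Q j, l.pts ∩ R = l.pts ∩ Q) : ∀ i ≤ j, run σ R i = run σ Q i := by
  intro i
  induction i with
  | zero => intro _; rfl
  | succ i ih =>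
    intro hi
    have h1 := ih (by omega)
    rw [run_succ, run_succ, h1]
    cases hq : σ (run σ Q i) with
    | none => rfl
    | some l =>
      have h2 := h l ⟨i, by omega, hq⟩
      simp only
      rw [h2]

/-! ### admissible lines -/

theorem adm_lt {n m : ℕ} {p : ℂ} {σ : Strategy} (hD : Determines n p m σ) {W : Finset ℂ}
    {c a b : ℂ} (hF : Frame W c a b) (hp : p ∈ interior (convexHull ℝ (W : Set ℂ)))
    (hn : W.card + 2 ≤ n) {j : ℕ}
    (hL : ∀ l ∈ Asked σ (convexHull ℝ ((insert c W : Finset ℂ) : Set ℂ)) j, c ∉ l.pts) {l : Line}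
    (hl : σ (run σ (convexHull ℝ ((insert c W : Finset ℂ) : Set ℂ)) j) = some l) :
    (l.pts ∩ interior (convexHull ℝ ((insert c W : Finset ℂ) : Set ℂ))).Nonempty := by
  obtain ⟨S, hS1, hS2, hS3, hS4, hS5, _, _⟩ := fill hF _ (asked_finite _ _ _) hL n hn 1 one_pos
  have hrun := agree_run hS5 j le_rfl
  have h1 := hD.adm (convexHull ℝ (S : Set ℂ)) ⟨S, hS1, hS2, rfl⟩
    (interior_mono (convexHull_mono hS3) hp) j l (by rw [hrun]; exact hl)
  exact h1.mono (Set.inter_subset_inter_right _ (interior_mono hS4))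

theorem adm_le {n m : ℕ} {p : ℂ} {σ : Strategy} (hD : Determines n p m σ) {W : Finset ℂ}
    {c a b : ℂ} (hF : Frame W c a b) (hp : p ∈ interior (convexHull ℝ (W : Set ℂ)))
    (hn : W.card + 1 ≤ n) {j : ℕ}
    (hL : ∀ l ∈ Asked σ (convexHull ℝ ((insert c W : Finset ℂ) : Set ℂ)) j, c ∉ l.pts) {l : Line}
    (hl : σ (run σ (convexHull ℝ ((insert c W : Finset ℂ) : Set ℂ)) j) = some l) :
    (l.pts ∩ interior (convexHull ℝ ((insert c W : Finset ℂ) : Set ℂ))).Nonempty := by
  rcases Nat.lt_or_ge (W.card + 1) n with h1 | h1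
  · exact adm_lt hD hF hp h1 hL hl
  · have hcW : c ∉ W := (cut hF (s := 1 / 2) (t := 1 / 2) (by norm_num) (by norm_num) (by norm_num)
      (by norm_num)).2.2.2.2.2
    have hcard : (insert c W : Finset ℂ).card = n := by
      rw [Finset.card_insert_of_notMem hcW]
      omega
    refine hD.adm _ ⟨insert c W, hcard, hF.ext, rfl⟩ ?_ j l hl
    refine interior_mono (convexHull_mono ?_) hp
    rw [Finset.coe_insert]
    exact Set.subset_insert _ _

/-! ### the states of the adversary -/

/-- one open corner -/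
def St1 (p : ℂ) (σ : Strategy) (j k : ℕ) : Prop :=
  ∃ (W : Finset ℂ) (c a b : ℂ), Frame W c a b ∧ W.card + 1 = k ∧
    p ∈ interior (convexHull ℝ (W : Set ℂ)) ∧
    ∀ l ∈ Asked σ (convexHull ℝ ((insert c W : Finset ℂ) : Set ℂ)) j, c ∉ l.pts

/-- two open corners -/
def St2 (p : ℂ) (σ : Strategy) (j k : ℕ) : Prop :=
  ∃ (W : Finset ℂ) (A B a b : ℂ), Frame (insert B W) A a B ∧ Frame (insert A W) B A b ∧
    A ∉ W ∧ B ∉ W ∧ W.card + 2 = k ∧
    p ∈ interior (convexHull ℝ (W : Set ℂ)) ∧
    ∀ l ∈ Asked σ (convexHull ℝ ((insert A (insert B W) : Finset ℂ) : Set ℂ)) j,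
      A ∉ l.pts ∧ B ∉ l.pts

theorem p_insert {p : ℂ} {W : Finset ℂ} (B : ℂ) (hp : p ∈ interior (convexHull ℝ (W : Set ℂ))) :
    p ∈ interior (convexHull ℝ ((insert B W : Finset ℂ) : Set ℂ)) := by
  refine interior_mono (convexHull_mono ?_) hp
  rw [Finset.coe_insert]
  exact Set.subset_insert _ _

theorem St2.toSt1 {p : ℂ} {σ : Strategy} {j k : ℕ} (h : St2 p σ j k) : St1 p σ j k := by
  obtain ⟨W, A, B, a, b, h1, h2, h3, h4, h5, h6, h7⟩ := h
  refine ⟨insert B W, A, a, B, h1, ?_, p_insert B h6, fun l hl => (h7 l hl).1⟩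
  rw [Finset.card_insert_of_notMem h4]
  omega

theorem fr01 (c a b : ℂ) : fr c a b 0 1 = b := by
  apply Complex.ext <;> simp [fr]

theorem fr10 (c a b : ℂ) : fr c a b 1 0 = a := by
  apply Complex.ext <;> simp [fr]

/-- a line through the corner `c` meeting the interior does not pass through its neighbours -/
theorem not_nb {W : Finset ℂ} {c a b : ℂ} (h : Frame W c a b) (l : Line) (hc : c ∈ l.pts)
    (hl : (l.pts ∩ interior (convexHull ℝ ((insert c W : Finset ℂ) : Set ℂ))).Nonempty) :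
    a ∉ l.pts ∧ b ∉ l.pts := by
  obtain ⟨d, e, hd, he, hde⟩ := line_through h l hc hl
  constructor
  · intro h1
    have h2 := (hde 1 0).mp (by rw [fr10]; exact h1)
    linarith
  · intro h1
    have h2 := (hde 0 1).mp (by rw [fr01]; exact h1)
    linarith

theorem step2 {n m : ℕ} {p : ℂ} {σ : Strategy} (hD : Determines n p m σ) {j k : ℕ}
    (hk : k < n) (h : St2 p σ j k) : St2 p σ (j + 1) k ∨ St1 p σ (j + 1) k := by
  obtain ⟨W, A, B, a, b, h1, h2, h3, h4, h5, h6, h7⟩ := h
  have hcard : (insert B W : Finset ℂ).card = W.card + 1 := Finset.card_insert_of_notMem h4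
  have hcard' : (insert A W : Finset ℂ).card = W.card + 1 := Finset.card_insert_of_notMem h3
  have hadm : ∀ l, σ (run σ (convexHull ℝ ((insert A (insert B W) : Finset ℂ) : Set ℂ)) j) = some l →
      (l.pts ∩ interior (convexHull ℝ ((insert A (insert B W) : Finset ℂ) : Set ℂ))).Nonempty :=
    fun l hl => adm_le hD h1 (p_insert B h6) (by omega) (fun l hl => (h7 l hl).1) hl
  by_cases hA : ∃ l, σ (run σ (convexHull ℝ ((insert A (insert B W) : Finset ℂ) : Set ℂ)) j) =
      some l ∧ A ∈ l.pts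
  · -- the line passes through `A`: `B` remains open
    right
    obtain ⟨l, hl, hAl⟩ := hA
    have hB := (not_nb h1 l hAl (hadm l hl)).2
    refine ⟨insert A W, B, A, b, h2, by omega, p_insert A h6, ?_⟩
    rw [Finset.insert_comm, asked_succ]
    rintro l' (hl' | hl')
    · exact (h7 l' hl').2
    · have hl'' : some l = some l' := hl.symm.trans hl'
      rw [← Option.some.inj hl'']
      exact hB
  · by_cases hB : ∃ l, σ (run σ (convexHull ℝ ((insert A (insert B W) : Finset ℂ) : Set ℂ)) j) =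
        some l ∧ B ∈ l.pts
    · right
      refine ⟨insert B W, A, a, B, h1, by omega, p_insert B h6, ?_⟩
      rw [asked_succ]
      rintro l' (hl' | hl')
      · exact (h7 l' hl').1
      · exact fun hA' => hA ⟨l', hl', hA'⟩
    · left
      refine ⟨W, A, B, a, b, h1, h2, h3, h4, h5, h6, ?_⟩
      rw [asked_succ]
      rintro l' (hl' | hl')
      · exact h7 l' hl'
      · exact ⟨fun hA' => hA ⟨l', hl', hA'⟩, fun hB' => hB ⟨l', hl', hB'⟩⟩

theorem step1 {n m : ℕ} {p : ℂ} {σ : Strategy} (hD : Determines n p m σ) {j k : ℕ}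
    (hk : k < n) (h : St1 p σ j k) : St1 p σ (j + 1) k ∨ St2 p σ (j + 2) (k + 1) := by
  obtain ⟨W, c, a, b, hF, hWk, hp, hL⟩ := h
  by_cases hthr : ∃ l, σ (run σ (convexHull ℝ ((insert c W : Finset ℂ) : Set ℂ)) j) = some l ∧
      c ∈ l.pts
  · right
    obtain ⟨l, hl, hcl⟩ := hthr
    have hint := adm_le hD hF hp (by omega) hL hl
    obtain ⟨d0, e0, hd0, he0, hde0⟩ := line_through hF l hcl hint
    obtain ⟨r, hr, hr1, hav⟩ := avoid c a b _ (asked_finite _ _ _) hL
    have hs0 : 0 < d0 + e0 := by positivity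
    set ρ : ℝ := r / (3 * (d0 + e0)) with hρ
    have hρ0 : 0 < ρ := by positivity
    set d : ℝ := ρ * d0 with hd
    set e : ℝ := ρ * e0 with he
    have hdpos : 0 < d := by positivity
    have hepos : 0 < e := by positivity
    have hsum : 3 * d + 3 * e = r := by
      rw [hd, he, hρ]
      field_simp
    have hde : ∀ x y : ℝ, fr c a b x y ∈ l.pts ↔ x * e = y * d := by
      intro x y
      rw [hde0 x y, hd, he]
      constructor
      · intro h1
        linear_combination ρ * h1
      · intro h1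
        have h2 : ρ * (x * e0) = ρ * (y * d0) := by linear_combination h1
        exact mul_left_cancel₀ hρ0.ne' h2
    -- the parameters of the cuts
    have hpar : ∀ θ : ℝ, 1 / 3 < θ → θ < 2 / 3 → 0 < d / θ ∧ d / θ < 1 ∧ d / θ ≤ r ∧
        0 < e / (1 - θ) ∧ e / (1 - θ) < 1 ∧ e / (1 - θ) ≤ r := by
      intro θ h1 h2
      have h3 : 0 < θ := by linarith
      have h4 : 0 < 1 - θ := by linarith
      have h5 : d / θ ≤ r := by
        rw [div_le_iff₀ h3]
        nlinarith
      have h6 : e / (1 - θ) ≤ r := by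
        rw [div_le_iff₀ h4]
        nlinarith
      exact ⟨by positivity, by linarith, h5, by positivity, by linarith, h6⟩
    set Qc : Set ℂ := convexHull ℝ ((insert c W : Finset ℂ) : Set ℂ) with hQc
    let Q : ℝ → Set ℂ := fun θ => convexHull ℝ ((insert (fr c a b (d / θ) 0)
      (insert (fr c a b 0 (e / (1 - θ))) W) : Finset ℂ) : Set ℂ)
    have hsame : ∀ θ : ℝ, 1 / 3 < θ → θ < 2 / 3 → ∀ l' ∈ Asked σ Qc j,
        l'.pts ∩ Q θ = l'.pts ∩ Qc := by
      intro θ h1 h2 l' hl'
      obtain ⟨g1, g2, g3, g4, g5, g6⟩ := hpar θ h1 h2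
      exact same hF g1 g3 g4 g6 hr1 l' (hav l' hl')
    have hrun : ∀ θ : ℝ, 1 / 3 < θ → θ < 2 / 3 → ∀ i ≤ j, run σ (Q θ) i = run σ Qc i :=
      fun θ h1 h2 => agree_run (hsame θ h1 h2)
    have hfam : ∀ θ θ' : ℝ, 1 / 3 < θ → θ < 2 / 3 → 1 / 3 < θ' → θ' < 2 / 3 →
        l.pts ∩ Q θ = l.pts ∩ Q θ' := by
      intro θ θ' h1 h2 h1' h2'
      exact family hF l hdpos hepos hde (by linarith) (by linarith) h1 h2 h1' h2'
    set T : List ℝ := run σ (Q (1 / 2)) (j + 1) with hT
    have hrun1 : ∀ θ : ℝ, 1 / 3 < θ → θ < 2 / 3 → run σ (Q θ) (j + 1) = T := by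
      intro θ h1 h2
      rw [hT, run_succ, run_succ, hrun θ h1 h2 j le_rfl, hrun (1 / 2) (by norm_num) (by norm_num) j
        le_rfl, hl]
      simp only
      rw [hfam θ (1 / 2) h1 h2 (by norm_num) (by norm_num)]
    -- asked lines
    have hask : ∀ θ : ℝ, 1 / 3 < θ → θ < 2 / 3 → ∀ l' ∈ Asked σ (Q θ) (j + 1),
        l' ∈ Asked σ Qc j ∪ {l} := by
      intro θ h1 h2 l' hl'
      obtain ⟨i, hi, hi'⟩ := hl'
      rcases Nat.lt_succ_iff_lt_or_eq.mp hi with h3 | h3
      · left
        rw [hrun θ h1 h2 i (by omega)] at hi'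
        exact ⟨i, h3, hi'⟩
      · right
        subst h3
        rw [hrun θ h1 h2 i le_rfl, hl] at hi'
        exact (Option.some.inj hi').symm
    have hask2 : ∀ θ : ℝ, 1 / 3 < θ → θ < 2 / 3 → ∀ l' ∈ Asked σ (Q θ) (j + 2),
        l' ∈ (Asked σ Qc j ∪ {l}) ∪ {l' | σ T = some l'} := by
      intro θ h1 h2 l' hl'
      have h3 : Asked σ (Q θ) (j + 2) = Asked σ (Q θ) (j + 1) ∪
        {l | σ (run σ (Q θ) (j + 1)) = some l} := asked_succ _ _ _
      rw [h3, hrun1 θ h1 h2] at hl'
      rcases hl' with hl' | hl'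
      · exact Or.inl (hask θ h1 h2 l' hl')
      · exact Or.inr hl'
    have hnb1 : ∀ l' ∈ Asked σ Qc j ∪ {l}, c ∈ l'.pts → a ∉ l'.pts ∧ b ∉ l'.pts := by
      rintro l' (hl' | hl') hc'
      · exact absurd hc' (hL l' hl')
      · have hl'' : l' = l := hl'
        rw [hl'']
        exact not_nb hF l hcl hint
    have hfin1 : (Asked σ Qc j ∪ {l}).Finite := (asked_finite _ _ _).union (Set.finite_singleton l)
    obtain ⟨θ1, h11, h12, hgen1⟩ := generic (c := c) (a := a) (b := b) _ hfin1
      (fun l' hl' hc' => (hnb1 l' hl' hc').1) (fun l' hl' hc' => (hnb1 l' hl' hc').2) hdpos hepos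
    -- the next line meets the interior
    have hnb2 : ∀ l' ∈ (Asked σ Qc j ∪ {l}) ∪ {l' | σ T = some l'}, c ∈ l'.pts →
        a ∉ l'.pts ∧ b ∉ l'.pts := by
      rintro l' (hl' | hl') hc'
      · exact hnb1 l' hl' hc'
      · have hl'' : σ T = some l' := hl'
        obtain ⟨g1, g2, g3, g4, g5, g6⟩ := hpar θ1 h11 h12
        obtain ⟨f1, f2, f3, f4, f5, f6⟩ := cut hF g1 g2 g4 g5
        have hcardB : (insert (fr c a b 0 (e / (1 - θ1))) W : Finset ℂ).card = W.card + 1 :=
          Finset.card_insert_of_notMem f4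
        have h3 := adm_le hD f1 (p_insert _ hp) (by omega) (j := j + 1)
          (fun l2 hl2 => (hgen1 l2 (hask θ1 h11 h12 l2 hl2)).1) (l := l') (by
            have := hrun1 θ1 h11 h12
            show σ (run σ (Q θ1) (j + 1)) = some l'
            rw [this]
            exact hl'')
        have h4 := (beyond hF g1 g2 g4 g5).1
        exact not_nb hF l' hc' (h3.mono (Set.inter_subset_inter_right _ (interior_mono h4)))
    have hfin2 : ((Asked σ Qc j ∪ {l}) ∪ {l' | σ T = some l'}).Finite :=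
      hfin1.union (some_finite _)
    obtain ⟨θ2, h21, h22, hgen2⟩ := generic (c := c) (a := a) (b := b) _ hfin2
      (fun l' hl' hc' => (hnb2 l' hl' hc').1) (fun l' hl' hc' => (hnb2 l' hl' hc').2) hdpos hepos
    obtain ⟨g1, g2, g3, g4, g5, g6⟩ := hpar θ2 h21 h22
    obtain ⟨f1, f2, f3, f4, f5, f6⟩ := cut hF g1 g2 g4 g5
    refine ⟨W, _, _, a, b, f1, f2, f3, f4, by omega, hp, ?_⟩
    intro l' hl'
    exact hgen2 l' (hask2 θ2 h21 h22 l' hl')
  · left
    refine ⟨W, c, a, b, hF, hWk, hp, ?_⟩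
    rw [asked_succ]
    rintro l' (hl' | hl')
    · exact hL l' hl'
    · exact fun hc' => hthr ⟨l', hl', hc'⟩

/-- the final contradiction -/
theorem not_det {n m : ℕ} {p : ℂ} {σ : Strategy} (hD : Determines n p m σ) {j k : ℕ}
    (hj : m ≤ j) (hk : k < n) (h : St1 p σ j k) : False := by
  obtain ⟨W, c, a, b, hF, hWk, hp, hL⟩ := h
  obtain ⟨S, S', h1, h2, h3, h4, h5, h6, h7, h8, h9⟩ := two hF _ (asked_finite _ _ _) hL n (by omega)
  apply h9
  apply hD.det _ _ ⟨S, h1, h3, rfl⟩ (interior_mono (convexHull_mono h5) hp) ⟨S', h2, h4, rfl⟩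
    (interior_mono (convexHull_mono h6) hp)
  rw [agree_run h7 m hj, agree_run h8 m hj]

/-- the main theorem -/
theorem lower {n m : ℕ} {p : ℂ} {σ : Strategy} (hD : Determines n p m σ) : 3 * n ≤ m + 14 := by
  by_contra hcon
  push Not at hcon
  have key : ∀ j ≤ m, ∃ j' k : ℕ, (j' = j ∨ j' = j + 1) ∧
      ((St1 p σ j' k ∧ 3 * k + 1 ≤ j' + 13) ∨ (St2 p σ j' k ∧ 3 * k ≤ j' + 13)) := by
    intro j
    induction j with
    | zero =>
      intro _
      obtain ⟨W, c, a, b, hF, hW, hp⟩ := init p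
      refine ⟨0, 4, Or.inl rfl, Or.inl ⟨⟨W, c, a, b, hF, by omega, hp, ?_⟩, by omega⟩⟩
      rintro l ⟨i, hi, _⟩
      omega
    | succ j ih =>
      intro hj
      obtain ⟨j', k, hj', hst⟩ := ih (by omega)
      rcases hj' with rfl | rfl
      · rcases hst with ⟨h1, h2⟩ | ⟨h1, h2⟩
        · rcases step1 hD (by omega) h1 with h3 | h3
          · exact ⟨j' + 1, k, Or.inl rfl, Or.inl ⟨h3, by omega⟩⟩
          · exact ⟨j' + 2, k + 1, Or.inr rfl, Or.inr ⟨h3, by omega⟩⟩
        · rcases step2 hD (by omega) h1 with h3 | h3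
          · exact ⟨j' + 1, k, Or.inl rfl, Or.inr ⟨h3, by omega⟩⟩
          · exact ⟨j' + 1, k, Or.inl rfl, Or.inl ⟨h3, by omega⟩⟩
      · exact ⟨j + 1, k, Or.inl rfl, hst⟩
  obtain ⟨j', k, hj', hst⟩ := key m le_rfl
  rcases hst with ⟨h1, h2⟩ | ⟨h1, h2⟩
  · exact not_det hD (j := j') (by omega) (by omega) h1
  · exact not_det hD (j := j') (by omega) (by omega) h1.toSt1

end Pool.Agent.Helper488.Probe
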